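import Pool.Agent.Helper86.NB.St

/-!
# Project NB, module EXT: the extension principle
-/

set_option autoImplicit false

namespace Pool.Agent.Helper19.NB

open Filter Topology Pool.Agent.Helper86.NB Pool.Agent.Helper86.ML Pool.Agent.Helper67.Cour

variable {G : Type} [Group G]

theorem KA_inf_KB (A : Subgroup G) [A.Normal] : KA A ⊓ KB A = ⊥ := by
  rw [eq_bot_iff]
  rintro z ⟨h1, h2⟩
  rw [Subgroup.mem_bot]
  apply Subtype.ext
  exact Prod.ext (mem_KB.1 h2) (mem_KA.1 h1)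

theorem KA_inf_Cc (A : Subgroup G) [A.Normal] : KA A ⊓ Cc A = ⊥ := by
  rw [eq_bot_iff]
  rintro z ⟨h1, h2⟩
  rw [Subgroup.mem_bot]
  apply Subtype.ext
  exact Prod.ext ((mem_Cc.1 h2).1.trans (mem_KA.1 h1)) (mem_KA.1 h1)

theorem lf_mem_KA (A : Subgroup G) [A.Normal] (b : A) : lf A b ∈ KA A := rfl

theorem bdd_comp_any {α β : Type} [Group α] [Group β] {F : β → ℂ} (hF : Bdd F) (e : α → β) :
    Bdd fun x => F (e x) := by
  obtain ⟨C, hC⟩ := hF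
  exact ⟨C, fun x => hC _⟩

/-- The auxiliary measure on the group. -/
theorem exists_kappa (h1 : StPOS) (h2 : StPWC) {μ : G → ℝ} (hμ : Courteous μ) (a : G) :
    ∃ (κ : G → ℝ) (p : ℝ), Courteous κ ∧ 0 < p ∧ 2 * p < κ a ∧
      (∀ f : G → ℂ, Bdd f → Harm μ f → Harm κ f) ∧ (Liouville μ → Liouville κ) := by
  obtain ⟨k, hk, -, hka⟩ := h1 G μ hμ a
  obtain ⟨h3, h4, h5⟩ := h2 G μ k hμ hk
  exact ⟨pw (lazy μ) k, pw (lazy μ) k a / 3, h3, by linarith, by linarith, h4, h5⟩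

/-- Steps (1) and (2). -/
theorem KA_le_of_liouville (h4 : StGTH) (h5 : StJIN) (A : Subgroup G) [A.Normal]
    (κ : G → ℝ) (p : ℝ) (a : A) (hκ : Courteous κ) (hM : Courteous (mt A κ p a))
    (hL : Liouville κ) : KA A ≤ actKer (mt A κ p a) := by
  refine h5 (Gt A) (KA A) (KB A) (mt A κ p a) (KA_inf_KB A) hM ?_
  intro F hb hF
  have hbm : Bdd fun z : Gt A => F (z : Gt A ⧸ KB A) := (bdd_comp (KB A)).2 hb
  have hFm : Harm (mt A κ p a) fun z : Gt A => F (z : Gt A ⧸ KB A) :=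
    (harm_quot (KB A) hM hb).2 hF
  have key : ∀ z : Gt A, (z : Gt A ⧸ KB A) = (dg A z.1.1 : Gt A) := by
    intro z
    symm
    rw [QuotientGroup.eq, mem_KB]
    show (z.1.1)⁻¹ * z.1.1 = 1
    exact inv_mul_cancel _
  have hf : Bdd fun x : G => F ((dg A x : Gt A) : Gt A ⧸ KB A) := by
    obtain ⟨C, hC⟩ := hb
    exact ⟨C, fun x => hC _⟩
  have hE : (fun z : Gt A => F (z : Gt A ⧸ KB A)) =
      fun z : Gt A => (fun x : G => F ((dg A x : Gt A) : Gt A ⧸ KB A)) z.1.1 := by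
    funext z
    show F (z : Gt A ⧸ KB A) = F ((dg A z.1.1 : Gt A) : Gt A ⧸ KB A)
    rw [← key z]
  rw [hE] at hFm
  have hfh := (h4.1 G A κ p a hκ _ hf).2 hFm
  have hc := hL _ hf hfh
  intro P Q
  obtain ⟨x, rfl⟩ := QuotientGroup.mk_surjective P
  obtain ⟨y, rfl⟩ := QuotientGroup.mk_surjective Q
  have hx := key x
  have hy := key y
  change F (x : Gt A ⧸ KB A) = F (y : Gt A ⧸ KB A)
  rw [hx, hy]
  exact hc x.1.1 y.1.1

/-- Step (3). -/
theorem liouville_Cc (h4 : StGTH) (A : Subgroup G) [A.Normal]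
    (hA : ∀ b ∈ A, ∀ c ∈ A, b * c = c * b)
    (κ : G → ℝ) (p : ℝ) (a : A) (hκ : Courteous κ) (hM : Courteous (mt A κ p a))
    (hL : Liouville κ) (hK : KA A ≤ actKer (mt A κ p a)) : Liouville (quot (Cc A) (mt A κ p a)) := by
  intro F hb hF
  have hbm : Bdd fun z : Gt A => F (z : Gt A ⧸ Cc A) := (bdd_comp (Cc A)).2 hb
  have hFm : Harm (mt A κ p a) fun z : Gt A => F (z : Gt A ⧸ Cc A) :=
    (harm_quot (Cc A) hM hb).2 hF
  have hinv : ∀ b ∈ KA A, ∀ z : Gt A,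
      (fun z : Gt A => F (z : Gt A ⧸ Cc A)) (b * z) = (fun z : Gt A => F (z : Gt A ⧸ Cc A)) z :=
    fun b hb' z => hK hb' _ hbm hFm z
  have hinv2 : ∀ c ∈ Cc A, ∀ z : Gt A,
      (fun z : Gt A => F (z : Gt A ⧸ Cc A)) (c * z) = (fun z : Gt A => F (z : Gt A ⧸ Cc A)) z := by
    intro c hc z
    show F ((c * z : Gt A) : Gt A ⧸ Cc A) = F (z : Gt A ⧸ Cc A)
    rw [QuotientGroup.mk_mul, (QuotientGroup.eq_one_iff c).2 hc, one_mul]
  have hfh := h4.2 G A κ p a hκ hA _ hbm hFm hinv hinv2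
  have hf : Bdd fun x : G => (fun z : Gt A => F (z : Gt A ⧸ Cc A)) (dg A x) := by
    obtain ⟨C, hC⟩ := hb
    exact ⟨C, fun x => hC _⟩
  have hc := hL _ hf hfh
  have key : ∀ z : Gt A, F (z : Gt A ⧸ Cc A) = F ((dg A z.1.2 : Gt A) : Gt A ⧸ Cc A) := by
    intro z
    have h6 := hinv _ (lf_mem_KA A ⟨z.1.1 * z.1.2⁻¹, mem_Gt.1 z.2⟩) (dg A z.1.2)
    rw [← eq_lf_mul_dg A z] at h6
    exact h6
  intro P Q
  obtain ⟨x, rfl⟩ := QuotientGroup.mk_surjective P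
  obtain ⟨y, rfl⟩ := QuotientGroup.mk_surjective Q
  rw [key x, key y]
  exact hc x.1.2 y.1.2

theorem hEXT (h1 : StPOS) (h2 : StPWC) (h3 : StGTC) (h4 : StGTH) (h5 : StJIN) : StEXT := by
  intro G _ a μ ν hA hS hμ hν hL
  have ha : a ∈ Subgroup.normalClosure {a} := Subgroup.subset_normalClosure (Set.mem_singleton a)
  obtain ⟨κ, p, hκ, hp, hpk, -, hκL⟩ := exists_kappa h1 h2 hμ a
  obtain ⟨κ', p', hκ', hp', hpk', hκh', -⟩ := exists_kappa h1 h2 hν a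
  have hM :=
    h3.2.2 G (Subgroup.normalClosure {a}) κ p ⟨a, ha⟩ hκ hp hpk rfl
  have hM' :=
    h3.2.2 G (Subgroup.normalClosure {a}) κ' p' ⟨a, ha⟩ hκ' hp' hpk' rfl
  have hK := KA_le_of_liouville h4 h5 (Subgroup.normalClosure {a}) κ p ⟨a, ha⟩ hκ hM (hκL hL)
  have hC := liouville_Cc h4 (Subgroup.normalClosure {a}) hA κ p ⟨a, ha⟩ hκ hM (hκL hL) hK
  have hC' :=
    (hS _ _ (quot_courteous _ hM) (quot_courteous _ hM')).1 hC
  have hK' := h5 _ (KA (Subgroup.normalClosure {a})) (Cc (Subgroup.normalClosure {a})) _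
    (KA_inf_Cc _) hM' hC'
  intro f hb hf x
  have hf1 := hκh' f hb hf
  have hf2 := (h4.1 G (Subgroup.normalClosure {a}) κ' p' ⟨a, ha⟩ hκ' f hb).1 hf1
  have hb2 : Bdd fun z : Gt (Subgroup.normalClosure {a}) => f z.1.1 := by
    obtain ⟨C, hC⟩ := hb
    exact ⟨C, fun z => hC _⟩
  exact hK' (lf_mem_KA (Subgroup.normalClosure {a}) ⟨a, ha⟩) _ hb2 hf2
    (dg (Subgroup.normalClosure {a}) x)

end Pool.Agent.Helper19.NB
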